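import Pool.Agent.Q5.BR.Cont

/-!
# Meromorphic continuation of `L(E, s)`: from thin families of fields to all number fields

`E` is an elliptic curve over a number field `K`, and `F` runs through finite extensions of `K`.  The
minimal models `V` and the Euler product `LSeries V s` with the correct factors at all primes are those of
`Pool.Agent.TH322.BC.Defs`.
-/

set_option autoImplicit false

namespace Pool.Agent.Results.MP_0d9be2_nt.DegreeLaw

open NumberField IsDedekindDomain
open Pool.Agent.TH322.BC.Edge (MinimalModels)

/-- `L(E, s) ^ t` has a meromorphic continuation to `ℂ`. -/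
def PowerContinues {F : Type} [Field F] [NumberField F] (E : WeierstrassCurve F) (t : ℕ) : Prop :=
  ∀ V : HeightOneSpectrum (𝓞 F) → WeierstrassCurve (𝓞 F), MinimalModels E V →
    ∃ f : ℂ → ℂ, MeromorphicOn f Set.univ ∧
      ∀ s : ℂ, 3 / 2 < s.re → f s = Pool.Agent.TH322.BC.Edge.LSeries V s ^ t

/-- `L(E, s)` has a meromorphic continuation to `ℂ`. -/
def Continues {F : Type} [Field F] [NumberField F] (E : WeierstrassCurve F) : Prop :=
  PowerContinues E 1

/-- `F` is generated over `K` by finitely many `p`-th roots of positive integers all of whose prime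
factors belong to `T`, and `p ^ k` divides the degree of `F/K`. -/
def TestField (T : Set ℕ) (p k : ℕ) (K F : Type) [Field K] [Field F] [Algebra K F] : Prop :=
  (∃ S : Set F, S.Finite ∧
    (∀ x ∈ S, ∃ c : ℕ, c ≠ 0 ∧ (∀ l : ℕ, l.Prime → l ∣ c → l ∈ T) ∧ x ^ p = (c : F)) ∧
    IntermediateField.adjoin K S = ⊤) ∧
  p ^ k ∣ Module.finrank K F

/-- A set of positive integers closed under multiples, with greatest common divisor `1`; for example
the multiples of `10^100` together with the multiples of `3^100`, or all `n ≥ 10^100`. -/
def IsSparse (D : Set ℕ) : Prop :=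
  (∀ d ∈ D, ∀ n : ℕ, 0 < n → d * n ∈ D) ∧ ∀ g : ℕ, (∀ d ∈ D, g ∣ d) → g = 1

theorem powAll_iff {F : Type} [Field F] [NumberField F] (E : WeierstrassCurve F) (t : ℕ) :
    PowerContinues E t ↔ Pool.Agent.Q5.BR.PowAll E (t : ℤ) := by
  unfold PowerContinues Pool.Agent.Q5.BR.PowAll Pool.Agent.Q5.BR.PowC
  simp only [zpow_natCast]

/-- **Degree laws for the meromorphic continuation.**
1. If `L(E/F, s)` continues for all test fields `F/K` of one prime `p`, one `k` and one infinite set
`T` of primes, then `L(E/K, s)^(p^k)` continues.
2. If `L(E/K, s)` has no meromorphic continuation, then for all primes `p` with at most one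
exception, all `k` and all infinite sets `T` of primes there is a test field `F` such that `L(E/F, s)` has
no meromorphic continuation.
3. If `L(E/F, s)` continues for all `F/K` with `[F:K] ∈ D`, it continues for all finite `F/K`.
4. If the conjecture holds over all number fields of degree in `D`, it holds over all number fields.
5. If `L(E/F, s)` continues for all `F/K` with `M ∣ [F:K]`, then `L(E/F, s)^(M / gcd(M, [F:K]))` continues
for all finite `F/K`. -/
theorem result :
    (∀ (K : Type) [Field K] [NumberField K] (E : WeierstrassCurve K), E.IsElliptic →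
      ∀ (p k : ℕ) (T : Set ℕ), p.Prime → (∀ l ∈ T, l.Prime) → T.Infinite →
      (∀ (F : Type) [Field F] [NumberField F] [Algebra K F], TestField T p k K F →
        Continues (E.map (algebraMap K F))) → PowerContinues E (p ^ k)) ∧
    (∀ (K : Type) [Field K] [NumberField K] (E : WeierstrassCurve K), E.IsElliptic →
      ¬ Continues E → ∃ p₀ : ℕ, ∀ (p k : ℕ) (T : Set ℕ), p.Prime → p ≠ p₀ →
      (∀ l ∈ T, l.Prime) → T.Infinite →
      ∃ (F : Type) (_ : Field F) (_ : NumberField F) (_ : Algebra K F), TestField T p k K F ∧
        ¬ Continues (E.map (algebraMap K F))) ∧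
    (∀ D : Set ℕ, IsSparse D →
      ∀ (K : Type) [Field K] [NumberField K] (E : WeierstrassCurve K), E.IsElliptic →
      (∀ (F : Type) [Field F] [NumberField F] [Algebra K F], Module.finrank K F ∈ D →
        Continues (E.map (algebraMap K F))) →
      ∀ (F : Type) [Field F] [NumberField F] [Algebra K F], Continues (E.map (algebraMap K F))) ∧
    (∀ D : Set ℕ, IsSparse D →
      (∀ (F : Type) [Field F] [NumberField F], Module.finrank ℚ F ∈ D →
        ∀ E : WeierstrassCurve F, E.IsElliptic → Continues E) →
      ∀ (F : Type) [Field F] [NumberField F] (E : WeierstrassCurve F), E.IsElliptic →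
        Continues E) ∧
    (∀ M : ℕ, 0 < M →
      ∀ (K : Type) [Field K] [NumberField K] (E : WeierstrassCurve K), E.IsElliptic →
      (∀ (F : Type) [Field F] [NumberField F] [Algebra K F], M ∣ Module.finrank K F →
        Continues (E.map (algebraMap K F))) →
      ∀ (F : Type) [Field F] [NumberField F] [Algebra K F],
        PowerContinues (E.map (algebraMap K F)) (M / M.gcd (Module.finrank K F))) := by
  have part1 : ∀ (K : Type) [Field K] [NumberField K] (E : WeierstrassCurve K), E.IsElliptic →
      ∀ (p k : ℕ) (T : Set ℕ), p.Prime → (∀ l ∈ T, l.Prime) → T.Infinite →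
      (∀ (F : Type) [Field F] [NumberField F] [Algebra K F], TestField T p k K F →
        Continues (E.map (algebraMap K F))) → PowerContinues E (p ^ k) := by
    intro K _ _ E hE p k T hp hT hinf h
    have hpf : Fact p.Prime := ⟨hp⟩
    rw [powAll_iff]
    have h1 := Pool.Agent.Q5.BR.power_law_radical hE p hT hinf k (by
      intro F _ _ _ hr hd
      have h2 := h F ⟨hr, hd⟩
      unfold Continues at h2
      rw [powAll_iff] at h2
      exact_mod_cast h2) k K (Pool.Agent.Q5.BR.isRadical_self T p K) (dvd_mul_left _ _)
    rw [Algebra.algebraMap_self, WeierstrassCurve.map_id] at h1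
    exact h1
  have part3 : ∀ D : Set ℕ, IsSparse D →
      ∀ (K : Type) [Field K] [NumberField K] (E : WeierstrassCurve K), E.IsElliptic →
      (∀ (F : Type) [Field F] [NumberField F] [Algebra K F], Module.finrank K F ∈ D →
        Continues (E.map (algebraMap K F))) →
      ∀ (F : Type) [Field F] [NumberField F] [Algebra K F],
        Continues (E.map (algebraMap K F)) := by
    intro D hD K _ _ E hE h F _ _ _
    unfold Continues
    rw [powAll_iff]
    intro V hV
    have hEF : (E.map (algebraMap K F)).IsElliptic := inferInstance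
    have h1 := Pool.Agent.Q5.BR.powC_one_of hEF hV hD.2 (fun d hd => by
      have h2 := Pool.Agent.Q5.BR.power_law hE (M := d) (by
        intro F' _ _ _ hdv
        obtain ⟨n, hn⟩ := hdv
        have h3 : Module.finrank K F' ∈ D := by
          rw [hn]
          refine hD.1 d hd n (Nat.pos_of_ne_zero ?_)
          rintro rfl
          rw [mul_zero] at hn
          exact (Module.finrank_pos (R := K) (M := F')).ne' hn
        have h4 := h F' h3
        unfold Continues at h4
        rw [powAll_iff] at h4
        exact_mod_cast h4) d F (dvd_mul_left _ _)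
      exact h2 V hV)
    exact_mod_cast h1
  refine ⟨part1, ?_, part3, ?_, ?_⟩
  · intro K _ _ E hE hnot
    by_contra hcon
    push Not at hcon
    obtain ⟨p, k, T, hp, -, hT, hinf, h⟩ := hcon 0
    obtain ⟨q, k', T', hq, hqp, hT', hinf', h'⟩ := hcon p
    have h1 := part1 K E hE p k T hp hT hinf (fun F _ _ _ hF => h F _ _ _ hF)
    have h2 := part1 K E hE q k' T' hq hT' hinf' (fun F _ _ _ hF => h' F _ _ _ hF)
    apply hnot
    unfold Continues
    rw [powAll_iff] at h1 h2 ⊢
    intro V hV
    have h3 := Pool.Agent.Q5.BR.powC_one_of hE hV (D := {p ^ k, q ^ k'}) (by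
      intro g hg
      have h4 := hg (p ^ k) (by simp)
      have h5 := hg (q ^ k') (by simp)
      have h6 : Nat.Coprime (p ^ k) (q ^ k') :=
        Nat.Coprime.pow _ _ ((Nat.coprime_primes hp hq).2 hqp.symm)
      exact Nat.eq_one_of_dvd_coprimes h6 h4 h5) (by
      rintro d (rfl | rfl)
      · exact h1 V hV
      · exact h2 V hV)
    exact_mod_cast h3
  · intro D hD h F _ _ E hE
    have h1 := part3 D hD F E hE (fun F' _ _ _ hd => h F' (by
      rw [← Module.finrank_mul_finrank ℚ F F', mul_comm]
      exact hD.1 _ hd _ Module.finrank_pos) _ inferInstance) F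
    rw [Algebra.algebraMap_self, WeierstrassCurve.map_id] at h1
    exact h1
  · intro M hM K _ _ E hE h F _ _ _
    rw [powAll_iff]
    have h1 := Pool.Agent.Q5.BR.power_law hE (M := M) (by
      intro F' _ _ _ hdv
      have h4 := h F' hdv
      unfold Continues at h4
      rw [powAll_iff] at h4
      exact_mod_cast h4) (M / M.gcd (Module.finrank K F)) F (by
      refine ⟨Module.finrank K F / M.gcd (Module.finrank K F), ?_⟩
      rw [← Nat.mul_div_assoc _ (Nat.gcd_dvd_left _ _), ← Nat.mul_div_assoc _
        (Nat.gcd_dvd_right _ _), mul_comm])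
    exact h1

end Pool.Agent.Results.MP_0d9be2_nt.DegreeLaw
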