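import Pool.Agent.Q70.EdG
import Pool.Agent.Q70.EdH

/-!
# The edge of absolute convergence as a curve: small complex powers of `L(E, s)`

Let `E` be an elliptic curve over a number field of degree at most `d` and `q ≠ 0` a complex number
with `16 d |q| ≤ 1`.  A primitive `F` of a branch of `L(E, s)^q` extends continuously to the closed
half-plane `Re s ≥ 3/2` and is injective there, with explicit distortion.  The edge `Re s = 3/2`
is mapped onto a chord-arc curve with a constant that depends on `d` only, and `L(E, s)` continues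
without zeros and poles across the point `3/2 + it₀` if and only if this curve is a regular analytic
arc there.
-/

set_option autoImplicit false

namespace Pool.Agent.Results.MP_0d9be2_nt.EdgeCurve

open NumberField IsDedekindDomain Filter Topology MeasureTheory

/-- `W v` is, for every finite place `v`, an integral model of `E` with discriminant minimal at
`v`. -/
def MinimalModels {K : Type} [Field K] [NumberField K] (E : WeierstrassCurve K)
    (W : HeightOneSpectrum (𝓞 K) → WeierstrassCurve (𝓞 K)) : Prop :=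
  ∀ v : HeightOneSpectrum (𝓞 K),
    (∃ C : WeierstrassCurve.VariableChange K, C • (W v).map (algebraMap (𝓞 K) K) = E) ∧
    ∀ W' : WeierstrassCurve (𝓞 K),
      (∃ C : WeierstrassCurve.VariableChange K, C • W'.map (algebraMap (𝓞 K) K) = E) →
      ∀ n : ℕ, (W v).Δ ∈ v.asIdeal ^ n → W'.Δ ∈ v.asIdeal ^ n

open Classical in
/-- The Euler factor at `v`, `(1 - a_v Nv^{-s} + Nv^{1-2s})⁻¹` if the reduction at `v` is good and
`(1 - a_v Nv^{-s})⁻¹` if it is bad, where `a_v` is `Nv` minus the number of affine points of the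
reduction of `W v`. -/
noncomputable def localFactor {K : Type} [Field K] [NumberField K]
    (W : HeightOneSpectrum (𝓞 K) → WeierstrassCurve (𝓞 K)) (v : HeightOneSpectrum (𝓞 K))
    (s : ℂ) : ℂ :=
  (1 - ((Ideal.absNorm v.asIdeal : ℂ)
        - (Nat.card {xy : (𝓞 K ⧸ v.asIdeal) × (𝓞 K ⧸ v.asIdeal) //
            ((W v).map (Ideal.Quotient.mk v.asIdeal)).toAffine.Equation xy.1 xy.2} : ℂ))
        * (Ideal.absNorm v.asIdeal : ℂ) ^ (-s)
    + (if (W v).Δ ∈ v.asIdeal then 0 else (Ideal.absNorm v.asIdeal : ℂ))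
        * (Ideal.absNorm v.asIdeal : ℂ) ^ (-2 * s))⁻¹

/-- The `L`-series, as the Euler product over all finite places. -/
noncomputable def LSeries {K : Type} [Field K] [NumberField K]
    (W : HeightOneSpectrum (𝓞 K) → WeierstrassCurve (𝓞 K)) (s : ℂ) : ℂ :=
  ∏' v : HeightOneSpectrum (𝓞 K), localFactor W v s

/-- The point `3/2 + it` of the edge of absolute convergence. -/
noncomputable def edgePoint (t : ℝ) : ℂ := ((3 / 2 : ℝ) : ℂ) + (t : ℂ) * Complex.I

/-- `F` is continuous on the closed half-plane `Re s ≥ 3/2`, and in the open half-plane it is a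
primitive of the branch `e^{qℓ(s)}` of the power `L(s)^q` given by a holomorphic logarithm `ℓ` of
the `L`-series. -/
def IsPowerPrimitive {K : Type} [Field K] [NumberField K]
    (W : HeightOneSpectrum (𝓞 K) → WeierstrassCurve (𝓞 K)) (q : ℂ) (F : ℂ → ℂ) : Prop :=
  ContinuousOn F {s : ℂ | (3 / 2 : ℝ) ≤ s.re} ∧ ∃ ℓ : ℂ → ℂ, ∀ s : ℂ, (3 / 2 : ℝ) < s.re →
    DifferentiableAt ℂ ℓ s ∧ Complex.exp (ℓ s) = LSeries W s ∧
      HasDerivAt F (Complex.exp (q * ℓ s)) s

/-- The summit of the right isosceles triangle over the segment from `s` to `s'`, moved to the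
right: the midpoint plus half the length. -/
noncomputable def summit (s s' : ℂ) : ℂ := (s + s') / 2 + ((‖s' - s‖ / 2 : ℝ) : ℂ)

/-- `L(s)` continues to a function holomorphic and without zeros in a neighbourhood of
`3/2 + it₀`. -/
def ContinuesAt {K : Type} [Field K] [NumberField K]
    (W : HeightOneSpectrum (𝓞 K) → WeierstrassCurve (𝓞 K)) (t₀ : ℝ) : Prop :=
  ∃ Φ : ℂ → ℂ, AnalyticAt ℂ Φ (edgePoint t₀) ∧ Φ (edgePoint t₀) ≠ 0 ∧
    ∀ᶠ s in 𝓝 (edgePoint t₀), (3 / 2 : ℝ) < s.re → Φ s = LSeries W s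

/-- Near `t₀` the curve `γ` runs in a regular analytic arc: `γ(t) = ψ(x(t))` with `ψ` holomorphic
at `0`, `ψ'(0) ≠ 0`, and real parameters `x(t) → 0` for `t → t₀`. -/
def IsAnalyticArcAt (γ : ℝ → ℂ) (t₀ : ℝ) : Prop :=
  ∃ ψ : ℂ → ℂ, AnalyticAt ℂ ψ 0 ∧ deriv ψ 0 ≠ 0 ∧ ∃ x : ℝ → ℝ, Tendsto x (𝓝 t₀) (𝓝 0) ∧
    ∀ᶠ t : ℝ in 𝓝 t₀, γ t = ψ (x t)

theorem lfactor_eq {K : Type} [Field K] [NumberField K]
    (W : HeightOneSpectrum (𝓞 K) → WeierstrassCurve (𝓞 K)) (v : HeightOneSpectrum (𝓞 K)) (s : ℂ) :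
    localFactor W v s = Pool.Agent.W350.EdgeEC.lf W v s := by
  have h1 : (Nat.card {xy : (𝓞 K ⧸ v.asIdeal) × (𝓞 K ⧸ v.asIdeal) //
            ((W v).map (Ideal.Quotient.mk v.asIdeal)).toAffine.Equation xy.1 xy.2}) =
        Pool.Agent.H341R2.EC.aff (Pool.Agent.H341R2.EC.red v (W v)) := by
    unfold Pool.Agent.H341R2.EC.aff Pool.Agent.H341R2.EC.red
    refine Nat.card_congr (Equiv.subtypeEquivRight fun q => ?_)
    exact WeierstrassCurve.Affine.equation_iff ..
  unfold localFactor Pool.Agent.W350.EdgeEC.lf Pool.Agent.H341R2.EC.trc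
  rw [h1]
  unfold Pool.Agent.H921R2.TatePole.nm
  push_cast
  rfl

theorem LS_eq {K : Type} [Field K] [NumberField K]
    (W : HeightOneSpectrum (𝓞 K) → WeierstrassCurve (𝓞 K)) (s : ℂ) :
    Pool.Agent.Q255.SG.LS W s = LSeries W s :=
  tprod_congr fun v => (lfactor_eq W v s).symm

/-- **The edge of absolute convergence as a curve.**  For every `d ≥ 1` there is a constant `C` such
that for every elliptic curve over a number field of degree at most `d`, with `L`-series `L`, and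
every complex `q ≠ 0` with `16 d |q| ≤ 1` there is a primitive `F` of a branch of `L^q` that is
continuous on `Re s ≥ 3/2`, and for every such `F` the following hold.

* (distortion) For `s ≠ s'` in the closed half-plane `Re s ≥ 3/2`, with `ζ = (s + s')/2 + |s' - s|/2`,
`|F(s') - F(s) - F'(ζ)(s' - s)| ≤ 14 d |q| |F'(ζ)(s' - s)|`; the factor is at most `7/8`.
* `F` is injective on the closed half-plane.
* (quasisymmetry) For real `x < y ≤ z`, with `γ(t) = F(3/2 + it)` and `κ = 4 d |q|`,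
`(1 - 7κ/2) |γ(y) - γ(x)| ≤ (1 + 7κ/2) ((y - x)/(z - x))^{1 - √2 κ} |γ(z) - γ(x)|`.
* (chord-arc) The length of `γ` between `x` and `y` is at most `C |γ(y) - γ(x)|`.
* (criterion) For every real `t₀`, `L` continues to a function holomorphic and without zeros in a
neighbourhood of `3/2 + it₀` if and only if `γ` runs near `t₀` in a regular analytic arc. -/
theorem result : ∀ d : ℕ, 1 ≤ d → ∃ C : ℝ, 0 < C ∧
    ∀ (K : Type) [Field K] [NumberField K], Module.finrank ℚ K ≤ d →
    ∀ (E : WeierstrassCurve K), E.IsElliptic →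
    ∀ (W : HeightOneSpectrum (𝓞 K) → WeierstrassCurve (𝓞 K)), MinimalModels E W →
    ∀ q : ℂ, q ≠ 0 → 16 * d * ‖q‖ ≤ 1 →
      (∃ F : ℂ → ℂ, IsPowerPrimitive W q F) ∧
      ∀ F : ℂ → ℂ, IsPowerPrimitive W q F →
        (∀ s s' : ℂ, (3 / 2 : ℝ) ≤ s.re → (3 / 2 : ℝ) ≤ s'.re → s ≠ s' →
          ‖F s' - F s - deriv F (summit s s') * (s' - s)‖ ≤
            14 * d * ‖q‖ * ‖deriv F (summit s s') * (s' - s)‖) ∧
        Set.InjOn F {s : ℂ | (3 / 2 : ℝ) ≤ s.re} ∧
        (∀ x y z : ℝ, x < y → y ≤ z →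
          (1 - 7 / 2 * (4 * d * ‖q‖)) * ‖F (edgePoint y) - F (edgePoint x)‖ ≤
            (1 + 7 / 2 * (4 * d * ‖q‖)) *
              ((y - x) / (z - x)) ^ (1 - Real.sqrt 2 * (4 * d * ‖q‖)) *
              ‖F (edgePoint z) - F (edgePoint x)‖) ∧
        (∀ x y : ℝ, x ≤ y → eVariationOn (fun t : ℝ => F (edgePoint t)) (Set.Icc x y) ≤
          ENNReal.ofReal (C * ‖F (edgePoint y) - F (edgePoint x)‖)) ∧
        ∀ t₀ : ℝ, ContinuesAt W t₀ ↔ IsAnalyticArcAt (fun t : ℝ => F (edgePoint t)) t₀ := by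
  intro d _
  obtain ⟨C, B, hC, h⟩ := Pool.Agent.Q70.EdG.ec_log d
  refine ⟨max (C * (8 * Real.exp 1)) (2 * C * Real.exp B * (8 * Real.exp B)), by positivity,
    fun K _ _ hK E _ W _ q hq hqd => ?_⟩
  obtain ⟨G, G', hG, hall⟩ := h K hK W
  obtain ⟨hH, hS, hB⟩ := hall q hqd
  have hκ : 4 * d * ‖q‖ ≤ 1 / 4 := by linarith
  have hGd : ∀ z : ℂ, 0 < z.re → HasDerivAt G (G' z) z := by
    intro z hz
    have h1 := (hH z hz).1.const_mul q⁻¹
    have e1 : (fun z => q⁻¹ * (q * G z)) = G := by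
      funext y
      field_simp
    have e2 : q⁻¹ * (q * G' z) = G' z := by field_simp
    rw [e1, e2] at h1
    exact h1
  have hL : ∀ s : ℂ, (3 / 2 : ℝ) < s.re → LSeries W s = Complex.exp (G (s - ((3 / 2 : ℝ) : ℂ))) := by
    intro s hs
    rw [hG _ (by rw [Complex.sub_re, Complex.ofReal_re]; linarith), ← LS_eq]
    congr 1
    ring
  refine ⟨?_, fun F hF => ?_⟩
  · obtain ⟨F0, hF0⟩ := Pool.Agent.Q70.EdA.exists_prim hH (by linarith)
    refine ⟨fun s => F0 (s - ((3 / 2 : ℝ) : ℂ)), ?_, fun s => G (s - ((3 / 2 : ℝ) : ℂ)),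
      fun s hs => ⟨?_, (hL s hs).symm, ?_⟩⟩
    · refine hF0.1.comp (by fun_prop) fun s hs => ?_
      have hs' : (3 / 2 : ℝ) ≤ s.re := hs
      show 0 ≤ (s - ((3 / 2 : ℝ) : ℂ)).re
      rw [Complex.sub_re, Complex.ofReal_re]
      linarith
    · have hz : 0 < (s - ((3 / 2 : ℝ) : ℂ)).re := by
        rw [Complex.sub_re, Complex.ofReal_re]
        linarith
      exact (hGd _ hz).differentiableAt.comp s (by fun_prop)
    · have hz : 0 < (s - ((3 / 2 : ℝ) : ℂ)).re := by
        rw [Complex.sub_re, Complex.ofReal_re]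
        linarith
      have h1 := hF0.2 _ hz
      have h2 : HasDerivAt (fun s : ℂ => s - ((3 / 2 : ℝ) : ℂ)) 1 s :=
        (hasDerivAt_id s).sub_const _
      have h3 := h1.comp s h2
      rw [mul_one] at h3
      exact h3
  · obtain ⟨hFc, ℓ, hℓ⟩ := hF
    obtain ⟨a, ha, hPr, hd⟩ := Pool.Agent.Q70.EdA.normal (c := 3 / 2) (q := q) hGd hFc
      (ℓ := ℓ) fun s hs => ⟨(hℓ s hs).1, by rw [(hℓ s hs).2.1, hL s hs], (hℓ s hs).2.2⟩
    obtain ⟨g1, g2, g3, g4⟩ := Pool.Agent.Q70.EdA.geometry hH hκ hC hS hB ha hPr hd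
    refine ⟨fun s s' hs hs' hne => ?_, g2, g3, g4, fun t₀ => ?_⟩
    · have := g1 s s' hs hs' hne
      have e : 7 / 2 * (4 * d * ‖q‖) = 14 * d * ‖q‖ := by ring
      rw [e] at this
      exact this
    · exact Pool.Agent.Q70.EdA.criterion hq hGd hH (by linarith) ha hPr hL t₀

end Pool.Agent.Results.MP_0d9be2_nt.EdgeCurve
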