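import Pool.Agent.Q255.SG.ECmain

/-!
# Continuation across the edge is decided by the modulus on the edge

For an elliptic curve over a number field, the `L`-series continues meromorphically to a
neighbourhood of the point `3/2 + it₀` of the edge of absolute convergence if and only if the square
of the modulus of its boundary function agrees almost everywhere near `t₀` with a function that is
meromorphic at `t₀`; the order of the continuation is half the order of that function.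
-/

set_option autoImplicit false

namespace Pool.Agent.Results.MP_0d9be2_nt.ModulusDecides

open NumberField IsDedekindDomain Filter Topology MeasureTheory

/-- `W v` is, for every finite place `v`, an integral model of `E` with discriminant minimal at
`v`. -/
def MinimalModels {K : Type} [Field K] [NumberField K] (E : WeierstrassCurve K)
    (W : HeightOneSpectrum (𝓞 K) → WeierstrassCurve (𝓞 K)) : Prop :=
  ∀ v : HeightOneSpectrum (𝓞 K),
    (∃ C : WeierstrassCurve.VariableChange K, C • (W v).map (algebraMap (𝓞 K) K) = E) ∧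
    ∀ W' : WeierstrassCurve (𝓞 K),
      (∃ C : WeierstrassCurve.VariableChange K, C • W'.map (algebraMap (𝓞 K) K) = E) →
      ∀ n : ℕ, (W v).Δ ∈ v.asIdeal ^ n → W'.Δ ∈ v.asIdeal ^ n

open Classical in
/-- The Euler factor at `v`, `(1 - a_v Nv^{-s} + Nv^{1-2s})⁻¹` if the reduction at `v` is good and
`(1 - a_v Nv^{-s})⁻¹` if it is bad, where `a_v` is `Nv` minus the number of affine points of the
reduction of `W v`. -/
noncomputable def localFactor {K : Type} [Field K] [NumberField K]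
    (W : HeightOneSpectrum (𝓞 K) → WeierstrassCurve (𝓞 K)) (v : HeightOneSpectrum (𝓞 K))
    (s : ℂ) : ℂ :=
  (1 - ((Ideal.absNorm v.asIdeal : ℂ)
        - (Nat.card {xy : (𝓞 K ⧸ v.asIdeal) × (𝓞 K ⧸ v.asIdeal) //
            ((W v).map (Ideal.Quotient.mk v.asIdeal)).toAffine.Equation xy.1 xy.2} : ℂ))
        * (Ideal.absNorm v.asIdeal : ℂ) ^ (-s)
    + (if (W v).Δ ∈ v.asIdeal then 0 else (Ideal.absNorm v.asIdeal : ℂ))
        * (Ideal.absNorm v.asIdeal : ℂ) ^ (-2 * s))⁻¹

/-- The `L`-series, as the Euler product over all finite places. -/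
noncomputable def LSeries {K : Type} [Field K] [NumberField K]
    (W : HeightOneSpectrum (𝓞 K) → WeierstrassCurve (𝓞 K)) (s : ℂ) : ℂ :=
  ∏' v : HeightOneSpectrum (𝓞 K), localFactor W v s

/-- The point `3/2 + iτ` of the edge of absolute convergence. -/
noncomputable def edgePoint (τ : ℝ) : ℂ := ((3 / 2 : ℝ) : ℂ) + (τ : ℂ) * Complex.I

/-- The angle `|s - s_τ| ≤ C (Re s - 3/2)` at `s_τ = 3/2 + iτ` in the half-plane `Re s > 3/2`. -/
def angle (τ C : ℝ) : Set ℂ :=
  {s : ℂ | (3 / 2 : ℝ) < s.re ∧ ‖s - edgePoint τ‖ ≤ C * (s.re - (3 / 2 : ℝ))}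

/-- The product of the Euler factors at `3/2 + iτ` over the finite places of norm less than `x`. -/
noncomputable def partialProduct {K : Type} [Field K] [NumberField K]
    (W : HeightOneSpectrum (𝓞 K) → WeierstrassCurve (𝓞 K)) (x : ℕ) (τ : ℝ) : ℂ :=
  ∏ᶠ v ∈ {v : HeightOneSpectrum (𝓞 K) | Ideal.absNorm v.asIdeal < x},
    localFactor W v (edgePoint τ)

/-- `l` is the boundary function of the `L`-series outside the exceptional set `T`: its values
there are not zero, and they are the limits of the partial Euler products and of the `L`-series in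
every angle. -/
def IsBoundaryFunction {K : Type} [Field K] [NumberField K] (T : Set ℝ)
    (W : HeightOneSpectrum (𝓞 K) → WeierstrassCurve (𝓞 K)) (l : ℝ → ℂ) : Prop :=
  ∀ τ : ℝ, τ ∉ T → l τ ≠ 0 ∧
    Tendsto (fun x : ℕ => partialProduct W x τ) atTop (𝓝 (l τ)) ∧
    ∀ C : ℝ, Tendsto (LSeries W) (𝓝[angle τ C] (edgePoint τ)) (𝓝 (l τ))

theorem partial_eq {K : Type} [Field K] [NumberField K]
    (W : HeightOneSpectrum (𝓞 K) → WeierstrassCurve (𝓞 K)) (x : ℕ) (τ : ℝ) :
    partialProduct W x τ = Pool.Agent.Q255.SA.PP W x τ := by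
  have hlf : ∀ v s, localFactor W v s = Pool.Agent.W350.EdgeEC.lf W v s := by
    intro v s
    have h1 : (Nat.card {xy : (𝓞 K ⧸ v.asIdeal) × (𝓞 K ⧸ v.asIdeal) //
            ((W v).map (Ideal.Quotient.mk v.asIdeal)).toAffine.Equation xy.1 xy.2}) =
        Pool.Agent.H341R2.EC.aff (Pool.Agent.H341R2.EC.red v (W v)) := by
      unfold Pool.Agent.H341R2.EC.aff Pool.Agent.H341R2.EC.red
      refine Nat.card_congr (Equiv.subtypeEquivRight fun q => ?_)
      exact WeierstrassCurve.Affine.equation_iff ..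
    unfold localFactor Pool.Agent.W350.EdgeEC.lf Pool.Agent.H341R2.EC.trc
    rw [h1]
    unfold Pool.Agent.H921R2.TatePole.nm
    push_cast
    rfl
  have hf : {v : HeightOneSpectrum (𝓞 K) | Ideal.absNorm v.asIdeal < x}.Finite :=
    Pool.Agent.W350.EdgeNF.hfin x
  unfold partialProduct Pool.Agent.Q255.SA.PP
  rw [finprod_mem_eq_finite_toFinset_prod _ hf]
  exact Finset.prod_congr rfl fun v _ => hlf v _

theorem lfactor_eq {K : Type} [Field K] [NumberField K]
    (W : HeightOneSpectrum (𝓞 K) → WeierstrassCurve (𝓞 K)) (v : HeightOneSpectrum (𝓞 K)) (s : ℂ) :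
    localFactor W v s = Pool.Agent.W350.EdgeEC.lf W v s := by
  have h1 : (Nat.card {xy : (𝓞 K ⧸ v.asIdeal) × (𝓞 K ⧸ v.asIdeal) //
            ((W v).map (Ideal.Quotient.mk v.asIdeal)).toAffine.Equation xy.1 xy.2}) =
        Pool.Agent.H341R2.EC.aff (Pool.Agent.H341R2.EC.red v (W v)) := by
    unfold Pool.Agent.H341R2.EC.aff Pool.Agent.H341R2.EC.red
    refine Nat.card_congr (Equiv.subtypeEquivRight fun q => ?_)
    exact WeierstrassCurve.Affine.equation_iff ..
  unfold localFactor Pool.Agent.W350.EdgeEC.lf Pool.Agent.H341R2.EC.trc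
  rw [h1]
  unfold Pool.Agent.H921R2.TatePole.nm
  push_cast
  rfl

theorem exists_bf {K : Type} [Field K] [NumberField K] (E : WeierstrassCurve K)
    (hE : E.IsElliptic) (W : HeightOneSpectrum (𝓞 K) → WeierstrassCurve (𝓞 K))
    (hW : MinimalModels E W) :
    ∃ l : ℝ → ℂ, IsBoundaryFunction Pool.Agent.W350.EdgeEC.TT W l := by
  classical
  have h : ∀ τ : ℝ, ∃ l : ℂ, τ ∉ Pool.Agent.W350.EdgeEC.TT → l ≠ 0 ∧
      Tendsto (fun x : ℕ => partialProduct W x τ) atTop (𝓝 l) ∧
      ∀ C : ℝ, Tendsto (LSeries W) (𝓝[angle τ C] (edgePoint τ)) (𝓝 l) := by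
    intro τ
    by_cases hτ : τ ∈ Pool.Agent.W350.EdgeEC.TT
    · exact ⟨0, fun h => absurd hτ h⟩
    · obtain ⟨l, h1, h2, h3⟩ := Pool.Agent.W350.EdgeEC.universal E hE W
        (fun v => Pool.Agent.W350.EdgeEC.isMinAt_twist (hW v)) τ hτ
      refine ⟨l, fun _ => ⟨h1, ?_, fun C => (h3 C).congr fun s => ?_⟩⟩
      · simp_rw [partial_eq]
        exact h2
      · exact tprod_congr fun v => (lfactor_eq W v s).symm
  choose l hl using h
  exact ⟨l, fun τ hτ => hl τ hτ⟩

theorem null_of_dimH {T : Set ℝ} (hT : dimH T = 0) : volume T = 0 := by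
  have h1 : (Measure.hausdorffMeasure (1 : ℝ) : Measure ℝ) T = 0 := by
    have := hausdorffMeasure_of_dimH_lt (X := ℝ) (s := T) (d := 1) (by rw [hT]; norm_num)
    simpa using this
  rw [← MeasureTheory.hausdorffMeasure_real]
  exact h1

theorem isLim {K : Type} [Field K] [NumberField K]
    {W : HeightOneSpectrum (𝓞 K) → WeierstrassCurve (𝓞 K)} {T : Set ℝ} {l : ℝ → ℂ}
    (h : IsBoundaryFunction T W l) : Pool.Agent.Q255.SA.IsLim W T l := by
  intro τ hτ
  refine ⟨(h τ hτ).1, ?_⟩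
  have := (h τ hτ).2.1
  simp_rw [partial_eq] at this
  exact this

/-- `F` is meromorphic at the point `3/2 + it₀` of the edge and agrees with the `L`-series at all
points of the half-plane `Re s > 3/2` near this point. -/
def IsContinuation {K : Type} [Field K] [NumberField K]
    (W : HeightOneSpectrum (𝓞 K) → WeierstrassCurve (𝓞 K)) (t₀ : ℝ) (F : ℂ → ℂ) : Prop :=
  MeromorphicAt F (edgePoint t₀) ∧ ∃ δ : ℝ, 0 < δ ∧
    ∀ s : ℂ, (3 / 2 : ℝ) < s.re → ‖s - edgePoint t₀‖ < δ → LSeries W s = F s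

/-- `φ` is a real function of a real variable, meromorphic at `t₀`, and agrees with `|l|²` at almost
all points near `t₀`. -/
def IsSquaredModulus (l : ℝ → ℂ) (t₀ : ℝ) (φ : ℝ → ℝ) : Prop :=
  MeromorphicAt φ t₀ ∧ ∃ δ : ℝ, 0 < δ ∧ ∀ᵐ t : ℝ, |t - t₀| < δ → ‖l t‖ ^ 2 = φ t

theorem edge_eq (t : ℝ) : Pool.Agent.Q255.SG.epw 1 t = edgePoint t := by
  unfold Pool.Agent.Q255.SG.epw edgePoint
  norm_num

theorem LS_eq {K : Type} [Field K] [NumberField K]
    (W : HeightOneSpectrum (𝓞 K) → WeierstrassCurve (𝓞 K)) (s : ℂ) :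
    Pool.Agent.Q255.SG.LS W s = LSeries W s :=
  tprod_congr fun v => (lfactor_eq W v s).symm

theorem horLim {K : Type} [Field K] [NumberField K]
    {W : HeightOneSpectrum (𝓞 K) → WeierstrassCurve (𝓞 K)} {T : Set ℝ} {l : ℝ → ℂ}
    (h : IsBoundaryFunction T W l) :
    Pool.Agent.Q255.SG.HorLim 1 (Pool.Agent.Q255.SG.LS W) T l := by
  intro t ht
  have h1 := (h t ht).2.2 1
  simp_rw [LS_eq]
  refine h1.comp ?_
  rw [tendsto_nhdsWithin_iff]
  refine ⟨?_, ?_⟩
  · have h2 : Continuous fun ε : ℝ => Pool.Agent.Q255.SG.epw 1 t + (ε : ℂ) := by fun_prop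
    have h3 := (h2.tendsto 0).mono_left (nhdsWithin_le_nhds (s := Set.Ioi 0))
    simpa [edge_eq] using h3
  · filter_upwards [self_mem_nhdsWithin] with ε hε
    have hε' : (0 : ℝ) < ε := hε
    have hre : (edgePoint t + (ε : ℂ)).re = 3 / 2 + ε := by
      unfold edgePoint
      simp
    rw [edge_eq]
    refine ⟨?_, ?_⟩
    · rw [hre]
      linarith
    · rw [hre, add_sub_cancel_left, Complex.norm_real, Real.norm_of_nonneg hε'.le]
      linarith

theorem cont_iff {K : Type} [Field K] [NumberField K]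
    {W : HeightOneSpectrum (𝓞 K) → WeierstrassCurve (𝓞 K)} {t₀ : ℝ} {F : ℂ → ℂ} :
    Pool.Agent.Q255.SG.ContAt (Pool.Agent.Q255.SG.LS W) (Pool.Agent.Q255.SG.epw 1 t₀) F ↔
      IsContinuation W t₀ F := by
  unfold Pool.Agent.Q255.SG.ContAt IsContinuation
  rw [Pool.Agent.Q255.SG.epw_re, edge_eq]
  simp_rw [LS_eq]
  norm_num

/-- **Continuation across the edge is decided by the modulus on the edge.**  There is a set `T` of
real numbers of Hausdorff dimension `0` such that the `L`-series of every elliptic curve over every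
number field has a boundary function `l` on the line `Re s = 3/2` outside `T`, and such that for
every elliptic curve over every number field and every real `t₀`:

* the `L`-series continues meromorphically to a neighbourhood of `3/2 + it₀` if and only if `|l|²`
agrees almost everywhere near `t₀` with a real function meromorphic at `t₀`;
* the order of that function at `t₀` is then twice the order of the continuation at `3/2 + it₀`;
* for every real `κ`, the `L`-series is `(s - s₀)^κ` times a function holomorphic and not zero at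
`s₀ = 3/2 + it₀` if and only if `|l(t)| = |t - t₀|^κ e^{ψ(t)}` for almost all `t` near `t₀` with a
function `ψ` real analytic at `t₀`. -/
theorem result : ∃ T : Set ℝ, dimH T = 0 ∧
    (∀ (K : Type) [Field K] [NumberField K] (E : WeierstrassCurve K) [E.IsElliptic]
      (W : HeightOneSpectrum (𝓞 K) → WeierstrassCurve (𝓞 K)) (_ : MinimalModels E W),
      ∃ l : ℝ → ℂ, IsBoundaryFunction T W l) ∧
    ∀ (K : Type) [Field K] [NumberField K] (E : WeierstrassCurve K) [E.IsElliptic]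
      (W : HeightOneSpectrum (𝓞 K) → WeierstrassCurve (𝓞 K)), MinimalModels E W →
    ∀ l : ℝ → ℂ, IsBoundaryFunction T W l → ∀ t₀ : ℝ,
      ((∃ F : ℂ → ℂ, IsContinuation W t₀ F) ↔ ∃ φ : ℝ → ℝ, IsSquaredModulus l t₀ φ) ∧
      (∀ (F : ℂ → ℂ) (φ : ℝ → ℝ), IsContinuation W t₀ F → IsSquaredModulus l t₀ φ →
        meromorphicOrderAt φ t₀ = 2 * meromorphicOrderAt F (edgePoint t₀)) ∧
      ∀ κ : ℝ,
        (∃ F : ℂ → ℂ, AnalyticAt ℂ F (edgePoint t₀) ∧ F (edgePoint t₀) ≠ 0 ∧ ∃ δ : ℝ, 0 < δ ∧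
          ∀ s : ℂ, (3 / 2 : ℝ) < s.re → ‖s - edgePoint t₀‖ < δ →
            LSeries W s = (s - edgePoint t₀) ^ (κ : ℂ) * F s) ↔
        ∃ ψ : ℝ → ℝ, AnalyticAt ℝ ψ t₀ ∧ ∃ δ : ℝ, 0 < δ ∧
          ∀ᵐ t : ℝ, |t - t₀| < δ → ‖l t‖ = |t - t₀| ^ κ * Real.exp (ψ t) := by
  have hT : volume Pool.Agent.W350.EdgeEC.TT = 0 := null_of_dimH Pool.Agent.W350.EdgeEC.dimH_TT
  refine ⟨Pool.Agent.W350.EdgeEC.TT, Pool.Agent.W350.EdgeEC.dimH_TT,
    fun K _ _ E hE W hW => exists_bf E hE W hW, fun K _ _ E _ W _ l hl t₀ => ?_⟩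
  have hl1 := isLim hl
  have hl2 := horLim hl
  have hfwd := Pool.Agent.Q255.SG.fwd_EC W hT hl1 (t0 := t₀)
  refine ⟨⟨?_, ?_⟩, fun F φ hF hφ => ?_, fun κ => ⟨?_, ?_⟩⟩
  · rintro ⟨F, hF⟩
    obtain ⟨m, _, φ, hφ, _⟩ := Pool.Agent.Q255.SG.mer_of_cont hT hl2
      (Pool.Agent.Q255.SG.LS_ne W) (cont_iff.2 hF)
    exact ⟨φ, hφ⟩
  · rintro ⟨φ, hφ⟩
    obtain ⟨m, _, F, hF, _⟩ := Pool.Agent.Q255.SG.cont_of_mer (w := 1) hT
      (fun t ht => (hl t ht).1) hfwd hφ
    exact ⟨F, cont_iff.1 hF⟩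
  · rw [← edge_eq]
    exact Pool.Agent.Q255.SG.order_eq hT hl2 (Pool.Agent.Q255.SG.LS_ne W) (cont_iff.2 hF) hφ
  · rintro ⟨F, h1, h2, δ, hδ, h3⟩
    rw [← edge_eq] at h1 h2 h3
    refine Pool.Agent.Q255.SG.bwd hT hl2 h1 h2 hδ fun s hs hsd => ?_
    rw [LS_eq]
    exact h3 s (by linarith) hsd
  · rintro ⟨ψ, h1, δ, hδ, h2⟩
    obtain ⟨F, h3, h4, δ', hδ', h5⟩ := hfwd κ ψ h1 δ hδ h2
    rw [edge_eq] at h3 h4 h5
    refine ⟨F, h3, h4, δ', hδ', fun s hs hsd => ?_⟩
    rw [← LS_eq]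
    exact h5 s (by linarith) hsd

end Pool.Agent.Results.MP_0d9be2_nt.ModulusDecides
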