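import Pool.Agent.Q7.TR.Rel

/-!
# Meromorphic continuation of `L(E, s)`: reduction to curves with a 3-isogeny or a cube as discriminant

`E` is an elliptic curve over a number field `K`, and `F` runs through finite extensions of `K`.  The
minimal models `V` and the Euler product `LSeries V s` with the correct factors at all primes are those of
`Pool.Agent.TH322.BC.Defs`.  `E.Ψ₃` is the 3-division polynomial (its roots are the `x`-coordinates of
the points of order 3) and `E.ΨSq m` is the square of the `m`-th division polynomial, a polynomial in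
`x`, of Mathlib.
-/

set_option autoImplicit false

namespace Pool.Agent.Results.MP_0d9be2_nt.ThreeIsogenyOrCube

open NumberField IsDedekindDomain Polynomial
open Pool.Agent.TH322.BC.Edge (MinimalModels LSeries)

/-- `L(E, s)` has a meromorphic continuation to `ℂ`. -/
def Continues {F : Type} [Field F] [NumberField F] (E : WeierstrassCurve F) : Prop :=
  ∀ V : HeightOneSpectrum (𝓞 F) → WeierstrassCurve (𝓞 F), MinimalModels E V →
    ∃ f : ℂ → ℂ, MeromorphicOn f Set.univ ∧ ∀ s : ℂ, 3 / 2 < s.re → f s = LSeries V s

/-- The 3-division polynomial has a root in `F` (that is, `E` has an isogeny of degree 3 defined over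
`F`), or the discriminant of `E` is a cube in `F`. -/
def IsogenyOrCube {F : Type} [Field F] (E : WeierstrassCurve F) : Prop :=
  (∃ x : F, E.Ψ₃.eval x = 0) ∨ ∃ d : F, d ^ 3 = E.Δ

/-- Hyperelementary groups: a normal cyclic subgroup of order prime to `p` whose quotient is a
`p`-group. -/
def Hyperelementary (G : Type) [Group G] : Prop :=
  ∃ p : ℕ, p.Prime ∧ ∃ C : Subgroup G, C.Normal ∧ IsCyclic C ∧ (Nat.card C).Coprime p ∧
    ∀ g : G, ∃ k : ℕ, g ^ p ^ k ∈ C

/-- A set of positive integers closed under multiples, with greatest common divisor `1`; for example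
all multiples of `10^100` and all multiples of `3^100`. -/
def IsSparse (D : Set ℕ) : Prop :=
  (∀ d ∈ D, ∀ n : ℕ, 0 < n → d * n ∈ D) ∧ ∀ g : ℕ, (∀ d ∈ D, g ∣ d) → g = 1

/-- The special curves: 3-isogeny or cube, and over `F` the division polynomials up to `n` and the
polynomials of the finite set `S` have hyperelementary Galois groups. -/
def Special (n : ℕ) (S : Finset ℚ[X]) {F : Type} [Field F] [NumberField F]
    (E : WeierstrassCurve F) : Prop :=
  IsogenyOrCube E ∧ (∀ m : ℕ, m ≤ n → Hyperelementary (E.ΨSq m).Gal) ∧
    ∀ g ∈ S, Hyperelementary (g.map (algebraMap ℚ F)).Gal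

theorem continues_iff {F : Type} [Field F] [NumberField F] (E : WeierstrassCurve F) :
    Continues E ↔ Pool.Agent.Q5.BR.PowAll E 1 := by
  unfold Continues Pool.Agent.Q5.BR.PowAll Pool.Agent.Q5.BR.PowC
  simp only [zpow_one]

/-- **Reduction to 3-isogenies and cubes.**
1. If `L(E/F, s)` continues for all `F/K` of degree at most 6 over which `E` has a 3-isogeny or the
discriminant of `E` is a cube, then `L(E/K, s)` continues.
2. If `L(E/K, s)` does not continue, then for all `D`, `n`, `S` there is a finite extension `F/K` with
`[F:K] ∈ D` such that `E/F` is special and `L(E/F, s)` does not continue.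
3. For all `D`, `n`, `S`: if `L(E/F, s)` continues for all special elliptic curves over number fields `F` with
`[F:ℚ] ∈ D`, then `L(E/F, s)` continues for all elliptic curves over all number fields. -/
theorem result :
    (∀ (K : Type) [Field K] [NumberField K] (E : WeierstrassCurve K), E.IsElliptic →
      (∀ (F : Type) [Field F] [NumberField F] [Algebra K F], Module.finrank K F ≤ 6 →
        IsogenyOrCube (E.map (algebraMap K F)) → Continues (E.map (algebraMap K F))) →
      Continues E) ∧
    (∀ (K : Type) [Field K] [NumberField K] (E : WeierstrassCurve K), E.IsElliptic →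
      ¬ Continues E → ∀ (D : Set ℕ) (n : ℕ) (S : Finset ℚ[X]), IsSparse D →
      ∃ (F : Type) (_ : Field F) (_ : NumberField F) (_ : Algebra K F),
        Module.finrank K F ∈ D ∧ Special n S (E.map (algebraMap K F)) ∧
        ¬ Continues (E.map (algebraMap K F))) ∧
    (∀ (D : Set ℕ) (n : ℕ) (S : Finset ℚ[X]), IsSparse D →
      (∀ (F : Type) [Field F] [NumberField F], Module.finrank ℚ F ∈ D →
        ∀ E : WeierstrassCurve F, E.IsElliptic → Special n S E → Continues E) →
      ∀ (F : Type) [Field F] [NumberField F] (E : WeierstrassCurve F), E.IsElliptic →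
        Continues E) := by
  -- one curve
  have key : ∀ (K : Type) [Field K] [NumberField K] (E : WeierstrassCurve K), E.IsElliptic →
      ∀ (D : Set ℕ) (n : ℕ) (S : Finset ℚ[X]), IsSparse D →
      (∀ (F : Type) [Field F] [NumberField F] [Algebra K F], Module.finrank K F ∈ D →
        Special n S (E.map (algebraMap K F)) → Continues (E.map (algebraMap K F))) →
      Continues E := by
    intro K _ _ E hE D n S hD h
    classical
    -- all fields of degree in `D`
    have h1 : ∀ (F : Type) [Field F] [NumberField F] [Algebra K F], Module.finrank K F ∈ D →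
        Pool.Agent.Q5.BR.PowAll (E.map (algebraMap K F)) 1 := by
      intro F _ _ _ hd
      have hEF : (E.map (algebraMap K F)).IsElliptic := inferInstance
      let T : Finset F[X] := (Finset.range (n + 1)).image
          (fun m : ℕ => (E.map (algebraMap K F)).ΨSq (m : ℤ)) ∪
        S.image (fun g => g.map (algebraMap ℚ F))
      obtain ⟨ι, _, X, k, hX, hrel⟩ := Pool.Agent.Q7.TR.hyper_relation hEF T
      have h2 := Pool.Agent.Q7.TR.powAll_of_rel hEF hrel 1 (fun j => by
        let _ : Algebra K (X j).F := ((algebraMap F (X j).F).comp (algebraMap K F)).toAlgebra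
        have : IsScalarTower K F (X j).F := IsScalarTower.of_algebraMap_eq fun x => rfl
        rw [← continues_iff]
        have h3 : (E.map (algebraMap K F)).map (algebraMap F (X j).F) =
            E.map (algebraMap K (X j).F) := by
          rw [WeierstrassCurve.map_map]
          rfl
        rw [h3]
        refine h (X j).F ?_ ⟨?_, fun m hm => ?_, fun g hg => ?_⟩
        · rw [← Module.finrank_mul_finrank K F (X j).F]
          exact hD.1 _ hd _ Module.finrank_pos
        · rw [← h3]
          exact (hX j).1
        · have h4 := (hX j).2 _ (Finset.mem_union_left _ (Finset.mem_image_of_mem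
            (fun m : ℕ => (E.map (algebraMap K F)).ΨSq (m : ℤ))
            (Finset.mem_range.2 (Nat.lt_succ_of_le hm))))
          rw [← WeierstrassCurve.map_ΨSq, h3] at h4
          exact h4
        · have h4 := (hX j).2 _ (Finset.mem_union_right _ (Finset.mem_image_of_mem
            (fun g : ℚ[X] => g.map (algebraMap ℚ F)) hg))
          rw [Polynomial.map_map] at h4
          have h5 : (algebraMap F (X j).F).comp (algebraMap ℚ F) = algebraMap ℚ (X j).F :=
            Subsingleton.elim _ _
          rw [h5] at h4
          exact h4)
      rw [mul_one] at h2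
      exact h2
    rw [continues_iff]
    intro V hV
    refine Pool.Agent.Q5.BR.powC_one_of hE hV hD.2 (fun d hd => ?_)
    have h2 := Pool.Agent.Q5.BR.power_law hE (M := d) (by
      intro F' _ _ _ hdv
      obtain ⟨n, hn⟩ := hdv
      refine h1 F' ?_
      rw [hn]
      refine hD.1 d hd n (Nat.pos_of_ne_zero ?_)
      rintro rfl
      rw [mul_zero] at hn
      exact (Module.finrank_pos (R := K) (M := F')).ne' hn) d K (dvd_mul_left _ _)
    rw [Algebra.algebraMap_self, WeierstrassCurve.map_id] at h2
    exact h2 V hV
  refine ⟨?_, ?_, ?_⟩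
  · intro K _ _ E hE h
    obtain ⟨ι, _, X, k, hX, hrel⟩ := Pool.Agent.Q7.TR.small_relation hE
    rw [continues_iff]
    have h2 := Pool.Agent.Q7.TR.powAll_of_rel hE hrel 1 (fun j => by
      rw [← continues_iff]
      exact h (X j).F (hX j).1 (hX j).2)
    rw [mul_one] at h2
    exact h2
  · intro K _ _ E hE hnot D n S hD
    by_contra hcon
    push Not at hcon
    exact hnot (key K E hE D n S hD fun F _ _ _ hd hs => hcon F _ _ _ hd hs)
  · intro D n S hD h F _ _ E hE
    refine key F E hE D n S hD fun F' _ _ _ hd hs => h F' ?_ _ inferInstance hs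
    rw [← Module.finrank_mul_finrank ℚ F F', mul_comm]
    exact hD.1 _ hd _ Module.finrank_pos

end Pool.Agent.Results.MP_0d9be2_nt.ThreeIsogenyOrCube
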